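import Pool.Agent.LibHF97.Circles

/-! Circles without bad arcs: the block form. -/

open Finset

namespace HF97

/-- a site -/
def site (e : Bool) : List ℕ := if e then [2, 3] else [3, 2]

/-- the word with the sites `es` and the blocks `bs` -/
def wd (es : List Bool) (bs : List (List ℕ)) : List ℕ :=
  (List.zipWith (fun e β => site e ++ β) es bs).flatten

theorem wd_cons (e : Bool) (es : List Bool) (β : List ℕ) (bs : List (List ℕ)) :
    wd (e :: es) (β :: bs) = (site e ++ β) ++ wd es bs := by
  simp [wd]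

theorem length_site (e : Bool) : (site e).length = 2 := by
  cases e <;> rfl

theorem length_wd {q : ℕ} : ∀ (es : List Bool) (bs : List (List ℕ)), es.length = bs.length →
    (∀ β ∈ bs, β.length = q) → (wd es bs).length = bs.length * (q + 2)
  | [], [], _, _ => by simp [wd]
  | [], _ :: _, h, _ => by simp at h
  | _ :: _, [], h, _ => by simp at h
  | e :: es, β :: bs, h, hβ => by
    rw [wd_cons, List.length_append, List.length_append, length_site,
      hβ β List.mem_cons_self, length_wd es bs (by simpa using h)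
        fun β' hβ' => hβ β' (List.mem_cons_of_mem _ hβ')]
    simp only [List.length_cons]
    ring

theorem W23_wd : ∀ (es : List Bool) (bs : List (List ℕ)), (∀ β ∈ bs, W23 β) → W23 (wd es bs)
  | [], _, _ => by simp [wd, W23]
  | _ :: _, [], _ => by simp [wd, W23]
  | e :: es, β :: bs, hβ => by
    intro x hx
    rw [wd_cons, List.mem_append, List.mem_append] at hx
    rcases hx with (hx | hx) | hx
    · cases e <;> simp [site] at hx <;> omega
    · exact hβ β List.mem_cons_self x hx
    · exact W23_wd es bs (fun β' hβ' => hβ β' (List.mem_cons_of_mem _ hβ')) x hx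

theorem getD_wd {q : ℕ} : ∀ (es : List Bool) (bs : List (List ℕ)), es.length = bs.length →
    (∀ β ∈ bs, β.length = q) → ∀ k j, k < bs.length → j < q →
    (wd es bs).getD (k * (q + 2) + (j + 2)) 0 = (bs.getD k []).getD j 0
  | [], [], _, _ => by
    intro k j hk
    simp at hk
  | [], _ :: _, h, _ => by simp at h
  | _ :: _, [], h, _ => by simp at h
  | e :: es, β :: bs, h, hβ => by
    intro k j hk hj
    have hl : (site e ++ β).length = q + 2 := by
      rw [List.length_append, length_site, hβ β List.mem_cons_self]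
      ring
    rw [wd_cons]
    cases k with
    | zero =>
      rw [zero_mul, zero_add, List.getD_append _ _ _ _ (by rw [hl]; omega),
        List.getD_append_right _ _ _ _ (by rw [length_site]; omega), length_site]
      simp
    | succ k =>
      rw [List.getD_append_right _ _ _ _ (by rw [hl]; nlinarith), hl]
      have h1 : (k + 1) * (q + 2) + (j + 2) - (q + 2) = k * (q + 2) + (j + 2) := by
        rw [add_mul, one_mul]
        omega
      rw [h1, getD_wd es bs (by simpa using h) (fun β' hβ' => hβ β' (List.mem_cons_of_mem _ hβ'))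
        k j (by simpa using hk) hj]
      simp

/-- block form -/
theorem circles_blocks {a b : ℝ} (ha : 0 < a) (hb : 0 < b) (hab : 1 < a + b) (T : Set (List ℕ))
    (hT : Summable fun w : {w : List ℕ // W23 w ∧ w ∈ T} => a ^ (w.1.count 2) * b ^ (w.1.count 3)) :
    ∃ G m : ℕ, 4 ≤ G ∧ ∀ B : ℕ, 1 ≤ B → ∃ bs : List (List ℕ), bs.length = B ∧
      (∀ β ∈ bs, β.length = G - 2 ∧ W23 β) ∧ Even (5 * B + bs.flatten.sum) ∧
      ∀ es : List Bool, es.length = B → ∀ i n, m < n → n ≤ B * G → arc (wd es bs) i n ∉ T := by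
  obtain ⟨G, m, hG, hC⟩ := circles ha hb hab T hT
  refine ⟨G, m, hG, fun B hB => ?_⟩
  obtain ⟨L, hL, hWL, hbad⟩ := hC B hB
  obtain ⟨q, rfl⟩ : ∃ q, G = q + 1 + 2 := ⟨G - 3, by omega⟩
  obtain ⟨B, rfl⟩ : ∃ B', B = B' + 1 := ⟨B - 1, by omega⟩
  have hLd : ∀ p, p < (B + 1) * (q + 1 + 2) → L.getD p 0 = 2 ∨ L.getD p 0 = 3 := by
    intro p hp
    rw [List.getD_eq_getElem _ _ (by rw [hL]; exact hp)]
    exact hWL _ (List.getElem_mem _)
  -- the blocks
  let R : ℕ → ℕ → ℕ → ℕ := fun c k j =>
    if k = 0 ∧ j = 0 then c else L.getD (k * (q + 1 + 2) + (j + 2)) 0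
  let bs : ℕ → List (List ℕ) := fun c =>
    List.ofFn fun k : Fin (B + 1) => List.ofFn fun j : Fin (q + 1) => R c k j
  have hlen : ∀ c, (bs c).length = B + 1 := fun c => by simp [bs]
  have hsum : (bs 3).flatten.sum = (bs 2).flatten.sum + 1 := by
    have h1 : ∀ c, (bs c).flatten.sum = c + ((List.ofFn fun j : Fin q => R 0 0 (j + 1)).sum +
        (List.ofFn fun k : Fin B =>
          List.ofFn fun j : Fin (q + 1) => R 0 (k + 1) j).flatten.sum) := by
      intro c
      have h2 : bs c = (c :: List.ofFn fun j : Fin q => R 0 0 (j + 1)) ::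
          List.ofFn fun k : Fin B => List.ofFn fun j : Fin (q + 1) => R 0 (k + 1) j := by
        simp only [bs, List.ofFn_succ (n := B)]
        congr 1
        rw [List.ofFn_succ]
        simp [R]
      rw [h2, List.flatten_cons, List.sum_append, List.sum_cons, add_assoc]
    rw [h1, h1]
    ring
  obtain ⟨c, hc, hev⟩ : ∃ c, (c = 2 ∨ c = 3) ∧ Even (5 * (B + 1) + (bs c).flatten.sum) := by
    rcases Nat.even_or_odd (5 * (B + 1) + (bs 2).flatten.sum) with h | h
    · exact ⟨2, Or.inl rfl, h⟩
    · refine ⟨3, Or.inr rfl, ?_⟩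
      rw [hsum, ← add_assoc]
      exact h.add_one
  have hpos : ∀ k j, k < B + 1 → j < q + 1 →
      k * (q + 1 + 2) + (j + 2) < (B + 1) * (q + 1 + 2) := by
    intro k j hk hj
    have h1 : (k + 1) * (q + 1 + 2) ≤ (B + 1) * (q + 1 + 2) := Nat.mul_le_mul_right _ hk
    have h2 : (k + 1) * (q + 1 + 2) = k * (q + 1 + 2) + (q + 1 + 2) := by ring
    omega
  have hR : ∀ k j, k < B + 1 → j < q + 1 → R c k j = 2 ∨ R c k j = 3 := by
    intro k j hk hj
    simp only [R]
    split_ifs with h
    · exact hc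
    · exact hLd _ (hpos k j hk hj)
  have hblock : ∀ β ∈ bs c, β.length = q + 1 ∧ W23 β := by
    intro β hβ
    simp only [bs, List.mem_ofFn] at hβ
    obtain ⟨k, rfl⟩ := hβ
    refine ⟨by simp, fun x hx => ?_⟩
    rw [List.mem_ofFn] at hx
    obtain ⟨j, rfl⟩ := hx
    exact hR k j k.2 j.2
  refine ⟨bs c, hlen c, hblock, hev, ?_⟩
  intro es hes i n hmn hn
  have hleq : es.length = (bs c).length := by rw [hes, hlen]
  refine hbad (wd es (bs c)) ?_ (W23_wd es (bs c) fun β hβ => (hblock β hβ).2) ?_ i n hmn hn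
  · rw [length_wd es (bs c) hleq fun β hβ => (hblock β hβ).1, hlen]
  · intro p hp hp3
    have hk : p / (q + 1 + 2) < B + 1 := Nat.div_lt_of_lt_mul (by rw [mul_comm]; exact hp)
    have hj : p % (q + 1 + 2) < q + 1 + 2 := Nat.mod_lt _ (by omega)
    have hp' : p = p / (q + 1 + 2) * (q + 1 + 2) + ((p % (q + 1 + 2) - 2) + 2) := by
      have := Nat.div_add_mod' p (q + 1 + 2)
      omega
    have h1 := getD_wd es (bs c) hleq (fun β hβ => (hblock β hβ).1) (p / (q + 1 + 2))
      (p % (q + 1 + 2) - 2) (by rw [hlen]; exact hk) (by omega)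
    rw [← hp'] at h1
    rw [h1]
    have h2 : (bs c).getD (p / (q + 1 + 2)) [] =
        List.ofFn fun j : Fin (q + 1) => R c (p / (q + 1 + 2)) j := by
      rw [List.getD_eq_getElem _ _ (by rw [hlen]; exact hk)]
      exact List.getElem_ofFn _
    rw [h2, List.getD_eq_getElem _ _ (by rw [List.length_ofFn]; omega)]
    simp only [List.getElem_ofFn, R]
    rw [if_neg (by omega), ← hp']

end HF97
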