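import Pool.Agent.LibHF97.EstW
import Pool.Agent.LibHF97.Blocks

/-! Circles without bad arcs. -/

open Finset

namespace HF97

/-- letter form: the letters at the positions `0, ..., h - 1 mod G` may be changed arbitrarily -/
theorem circlesW (h : ℕ) {a b : ℝ} (ha : 0 < a) (hb : 0 < b) (hab : 1 < a + b) (T : Set (List ℕ))
    (hT : Summable fun w : {w : List ℕ // W23 w ∧ w ∈ T} => a ^ (w.1.count 2) * b ^ (w.1.count 3)) :
    ∃ G m : ℕ, h + 4 ≤ G ∧ ∀ B : ℕ, 1 ≤ B → ∃ L : List ℕ, L.length = B * G ∧ W23 L ∧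
      ∀ L' : List ℕ, L'.length = B * G → W23 L' →
        (∀ j < B * G, h ≤ j % G → L'.getD j 0 = L.getD j 0) →
        ∀ i n, m < n → n ≤ B * G → arc L' i n ∉ T := by
  classical
  obtain ⟨C0, hC00, hC0⟩ := sum_words ha hb T hT
  -- the weights
  let w : Bool → ℝ := fun c => (if c then b else a) / (a + b)
  have hab0 : 0 < a + b := by positivity
  have hwpos : ∀ c, 0 < w c := by
    intro c
    cases c <;> simp only [w, if_true, Bool.false_eq_true, if_false] <;> positivity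
  have hw1 : ∑ c, w c = 1 := by
    rw [Fintype.sum_bool]
    simp only [w, if_true, Bool.false_eq_true, if_false]
    field_simp
    ring
  let κ : ℝ := 1 + (w true)⁻¹ + (w false)⁻¹
  have hκ1 : 1 ≤ κ := by
    have h1 := (inv_pos.2 (hwpos true)).le
    have h2 := (inv_pos.2 (hwpos false)).le
    simp only [κ]
    linarith
  have hκ : ∀ c, 1 ≤ w c * κ := by
    intro c
    have h1 := (inv_pos.2 (hwpos true)).le
    have h2 := (inv_pos.2 (hwpos false)).le
    have h3 : (w c)⁻¹ ≤ κ := by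
      cases c <;> simp only [κ] <;> linarith
    calc (1 : ℝ) = w c * (w c)⁻¹ := (mul_inv_cancel₀ (hwpos c).ne').symm
      _ ≤ w c * κ := mul_le_mul_of_nonneg_left h3 (hwpos c).le
  -- the parameters
  let δ : ℝ := √(√(a + b))
  have hδ4 : δ ^ 4 = a + b := by
    have h1 : δ ^ 2 = √(a + b) := Real.sq_sqrt (Real.sqrt_nonneg _)
    calc δ ^ 4 = (δ ^ 2) ^ 2 := by ring
      _ = a + b := by rw [h1, Real.sq_sqrt hab0.le]
  have hδ1 : 1 < δ := by
    rw [Real.lt_sqrt (by norm_num), Real.lt_sqrt (by norm_num)]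
    simpa using hab
  have hδ0 : 0 < δ := by linarith
  obtain ⟨g0, hg0⟩ := pow_unbounded_of_one_lt (κ ^ h) hδ1
  let G : ℕ := g0 + (h + 4)
  have hκG : κ ^ h ≤ δ ^ G := hg0.le.trans (pow_le_pow_right₀ hδ1.le (by omega))
  -- the series
  let F : ℕ → ℝ := fun n => (n : ℝ) * (C0 * δ ^ G * ((δ ^ 2)⁻¹) ^ n)
  have hFs : Summable F := by
    have h1 : ‖((δ ^ 2)⁻¹ : ℝ)‖ < 1 := by
      rw [norm_inv, Real.norm_of_nonneg (by positivity)]
      apply inv_lt_one_of_one_lt₀
      nlinarith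
    have h2 := summable_pow_mul_geometric_of_norm_lt_one 1 h1
    refine (h2.mul_left (C0 * δ ^ G)).congr fun n => ?_
    simp only [F, pow_one]
    ring
  have hF0 : ∀ n, 0 ≤ F n := fun n => by
    simp only [F]
    positivity
  have hβ1 : 0 < 1 - δ⁻¹ := by
    have := inv_lt_one_of_one_lt₀ hδ1
    linarith
  obtain ⟨s, hs⟩ := summable_iff_vanishing_norm.1 hFs (1 - δ⁻¹) hβ1
  obtain ⟨m, hm⟩ : ∃ m : ℕ, ∀ j ∈ s, j ≤ m := ⟨s.sup id, fun j hj => le_sup (f := id) hj⟩
  refine ⟨G, m, by omega, fun B hB => ?_⟩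
  let N : ℕ := B * G
  have hN : 0 < N := Nat.mul_pos hB (by omega)
  have hGN : G ∣ N := Dvd.intro_left B rfl
  -- the events
  let E : Type := Fin N × {n // n ∈ Ioc m N}
  let Is : E → Finset (Fin N) := fun e => sup hN (e.1 : ℕ) e.2.1
  let bd : E → Set (Fin N → Bool) := fun e => badW h G T (e.1 : ℕ) e.2.1
  have hcard : ∀ e, (Is e).card = e.2.1 := fun e => card_sup hN (mem_Ioc.1 e.2.2).2
  have hne : ∀ e, (Is e).Nonempty := by
    intro e
    rw [← card_pos, hcard]
    have := (mem_Ioc.1 e.2.2).1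
    omega
  have hterm : ∀ e : E, pr w (bd e) * δ ^ ((Is e).card - 1) ≤
      C0 * δ ^ G * ((δ ^ 2)⁻¹) ^ e.2.1 := by
    intro e
    have hnN := (mem_Ioc.1 e.2.2).2
    have h1 := pr_badW (hh := h) (G := G) ha hb (w := w) (fun _ => rfl) hκ1 hκ T hC0 hN hGN (e.1 : ℕ) e.2.1 hnN
    rw [hcard]
    have h2 : κ ^ (h * (e.2.1 / G + 1)) ≤ δ ^ (e.2.1 + G) := by
      rw [pow_mul]
      calc (κ ^ h) ^ (e.2.1 / G + 1) ≤ (δ ^ G) ^ (e.2.1 / G + 1) :=
            pow_le_pow_left₀ (by positivity) hκG _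
        _ = δ ^ (G * (e.2.1 / G) + G) := by rw [← pow_mul]; ring_nf
        _ ≤ δ ^ (e.2.1 + G) :=
          pow_le_pow_right₀ hδ1.le (by have := Nat.mul_div_le e.2.1 G; omega)
    have h3 : δ ^ (e.2.1 - 1) ≤ δ ^ e.2.1 := pow_le_pow_right₀ hδ1.le (by omega)
    calc pr w (bd e) * δ ^ (e.2.1 - 1)
        ≤ (C0 * (a + b)⁻¹ ^ e.2.1 * κ ^ (h * (e.2.1 / G + 1))) * δ ^ e.2.1 := by
          refine mul_le_mul h1 h3 (by positivity) ?_
          have : 0 ≤ κ := by linarith
          positivity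
      _ ≤ (C0 * (a + b)⁻¹ ^ e.2.1 * δ ^ (e.2.1 + G)) * δ ^ e.2.1 := by
          refine mul_le_mul_of_nonneg_right (mul_le_mul_of_nonneg_left h2 ?_) (by positivity)
          positivity
      _ = C0 * δ ^ G * ((δ ^ 2)⁻¹) ^ e.2.1 := by
          rw [← hδ4, pow_add]
          have h4 : (δ ^ 4)⁻¹ ^ e.2.1 * δ ^ e.2.1 * δ ^ e.2.1 = ((δ ^ 2)⁻¹) ^ e.2.1 := by
            rw [← mul_pow, ← mul_pow]
            congr 1
            field_simp
          calc _ = C0 * δ ^ G * ((δ ^ 4)⁻¹ ^ e.2.1 * δ ^ e.2.1 * δ ^ e.2.1) := by ring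
            _ = _ := by rw [h4]
  have hsum : ∀ x : Fin N, ∑ e with x ∈ Is e, pr w (bd e) * (δ⁻¹)⁻¹ ^ ((Is e).card - 1) ≤
      1 - δ⁻¹ := by
    intro x
    rw [inv_inv]
    have h1 : ∑ e with x ∈ Is e, pr w (bd e) * δ ^ ((Is e).card - 1) ≤
        ∑ e with x ∈ Is e, C0 * δ ^ G * ((δ ^ 2)⁻¹) ^ e.2.1 := sum_le_sum fun e _ => hterm e
    refine h1.trans ?_
    have h2 : ∑ e with x ∈ Is e, C0 * δ ^ G * ((δ ^ 2)⁻¹) ^ e.2.1 =
        ∑ n : {n // n ∈ Ioc m N}, ∑ i : Fin N,
          (if x ∈ sup hN (i : ℕ) n.1 then C0 * δ ^ G * ((δ ^ 2)⁻¹) ^ n.1 else 0) := by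
      rw [sum_filter]
      exact Fintype.sum_prod_type_right _
    rw [h2]
    have h3 : ∀ n : {n // n ∈ Ioc m N}, ∑ i : Fin N,
        (if x ∈ sup hN (i : ℕ) n.1 then C0 * δ ^ G * ((δ ^ 2)⁻¹) ^ n.1 else 0) ≤ F n.1 := by
      intro n
      rw [← sum_filter, sum_const, nsmul_eq_mul]
      refine mul_le_mul_of_nonneg_right ?_ (by positivity)
      exact_mod_cast card_starts hN n.1 x
    refine (sum_le_sum fun n _ => h3 n).trans ?_
    rw [sum_coe_sort (Ioc m N) F]
    have h4 := hs (Ioc m N) (disjoint_left.2 fun j hj hjs => by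
      have h5 := hm j hjs
      have h6 := (mem_Ioc.1 hj).1
      omega)
    rw [Real.norm_of_nonneg (sum_nonneg fun n _ => hF0 n)] at h4
    exact h4.le
  obtain ⟨f, hf⟩ := miller (fun c => (hwpos c).le) hw1
    (fun e : E => bad_depW (h := h) (G := G) T hN (e.1 : ℕ) e.2.1) hne (inv_pos.2 hδ0) hsum
  refine ⟨word f, length_word f, W23_word f, ?_⟩
  intro L' hL' hW' hag i n hmn hnN hmem
  -- the word of `L'`
  let g : Fin N → Bool := fun x => decide (L'.getD (x : ℕ) 0 = 3)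
  have hg : word g = L' := by
    apply List.ext_getElem
    · rw [length_word, hL']
    · intro j h1 h2
      have h3 : L'[j] = 2 ∨ L'[j] = 3 := hW' _ (List.getElem_mem h2)
      have h4 : L'.getD j 0 = L'[j] := List.getD_eq_getElem _ _ h2
      simp only [word, List.getElem_ofFn, g, h4]
      rcases h3 with h3 | h3 <;> simp [h3, lt]
  have hgf : ∀ x : Fin N, h ≤ (x : ℕ) % G → g x = f x := by
    intro x hx
    have h1 := hag x x.2 hx
    rw [← hg, getD_word g x.2, getD_word f x.2] at h1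
    exact lt_inj h1
  refine hf (pos hN i 0, ⟨n, mem_Ioc.2 ⟨hmn, hnN⟩⟩) ⟨g, hgf, ?_⟩
  have h1 : arc (word g) ((pos hN i 0 : Fin N) : ℕ) n = arc (word g) i n := by
    rw [arc_word hN, arc_word hN]
    congr 1
    funext j
    congr 1
    apply Fin.ext
    simp [pos]
  rw [hg] at h1
  change arc (word g) ((pos hN i 0 : Fin N) : ℕ) n ∈ T
  rw [hg, h1]
  exact hmem

/-- block form: every block begins with the word `u0` -/
theorem circles_word {a b : ℝ} (ha : 0 < a) (hb : 0 < b) (hab : 1 < a + b) (T : Set (List ℕ))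
    (hT : Summable fun w : {w : List ℕ // W23 w ∧ w ∈ T} => a ^ (w.1.count 2) * b ^ (w.1.count 3))
    (u0 : List ℕ) (hu0 : W23 u0) :
    ∃ G m : ℕ, u0.length + 4 ≤ G ∧ ∀ B : ℕ, 1 ≤ B → ∃ bs : List (List ℕ), bs.length = B ∧
      (∀ β ∈ bs, β.length = G - 2 ∧ W23 β ∧ u0 <+: β) ∧
      ∀ es : List Bool, es.length = B → ∀ i n, m < n → n ≤ B * G → arc (wd es bs) i n ∉ T := by
  obtain ⟨G, m, hG, hC⟩ := circlesW (u0.length + 2) ha hb hab T hT
  refine ⟨G, m, by omega, fun B hB => ?_⟩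
  obtain ⟨L, hL, hWL, hbad⟩ := hC B hB
  obtain ⟨q, hq⟩ : ∃ q, G = (u0.length + q) + 2 := ⟨G - 2 - u0.length, by omega⟩
  have hq1 : 1 ≤ q := by omega
  subst hq
  have hLd : ∀ p, p < B * (u0.length + q + 2) → L.getD p 0 = 2 ∨ L.getD p 0 = 3 := by
    intro p hp
    rw [List.getD_eq_getElem _ _ (by rw [hL]; exact hp)]
    exact hWL _ (List.getElem_mem _)
  -- the blocks
  let R : ℕ → List ℕ := fun k => u0 ++ List.ofFn fun j : Fin q =>
    L.getD (k * (u0.length + q + 2) + ((j : ℕ) + u0.length + 2)) 0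
  let bs : List (List ℕ) := List.ofFn fun k : Fin B => R k
  have hlen : bs.length = B := by simp [bs]
  have hpos : ∀ k j, k < B → j < q →
      k * (u0.length + q + 2) + (j + u0.length + 2) < B * (u0.length + q + 2) := by
    intro k j hk hj
    have h1 : (k + 1) * (u0.length + q + 2) ≤ B * (u0.length + q + 2) := Nat.mul_le_mul_right _ hk
    have h2 : (k + 1) * (u0.length + q + 2) =
      k * (u0.length + q + 2) + (u0.length + q + 2) := by ring
    omega
  have hblock : ∀ β ∈ bs, β.length = u0.length + q ∧ W23 β ∧ u0 <+: β := by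
    intro β hβ
    simp only [bs, List.mem_ofFn] at hβ
    obtain ⟨k, rfl⟩ := hβ
    refine ⟨by simp [R], fun x hx => ?_, List.prefix_append _ _⟩
    simp only [R] at hx
    rw [List.mem_append, List.mem_ofFn] at hx
    rcases hx with hx | ⟨j, rfl⟩
    · exact hu0 x hx
    · exact hLd _ (hpos k j k.2 j.2)
  refine ⟨bs, hlen, fun β hβ => ⟨by rw [(hblock β hβ).1]; omega, (hblock β hβ).2⟩, ?_⟩
  intro es hes i n hmn hn
  have hleq : es.length = bs.length := by rw [hes, hlen]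
  refine hbad (wd es bs) ?_ (W23_wd es bs fun β hβ => (hblock β hβ).2.1) ?_ i n hmn hn
  · rw [length_wd es bs hleq fun β hβ => (hblock β hβ).1, hlen]
  · intro p hp hp3
    have hk : p / (u0.length + q + 2) < B := Nat.div_lt_of_lt_mul (by rw [mul_comm]; exact hp)
    have hj : p % (u0.length + q + 2) < u0.length + q + 2 := Nat.mod_lt _ (by omega)
    have hp' : p = p / (u0.length + q + 2) * (u0.length + q + 2) +
        ((p % (u0.length + q + 2) - 2) + 2) := by
      have := Nat.div_add_mod' p (u0.length + q + 2)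
      omega
    have h1 := getD_wd es bs hleq (fun β hβ => (hblock β hβ).1) (p / (u0.length + q + 2))
      (p % (u0.length + q + 2) - 2) (by rw [hlen]; exact hk) (by omega)
    rw [← hp'] at h1
    rw [h1]
    have h2 : bs.getD (p / (u0.length + q + 2)) [] = R (p / (u0.length + q + 2)) := by
      rw [List.getD_eq_getElem _ _ (by rw [hlen]; exact hk)]
      exact List.getElem_ofFn _
    rw [h2]
    simp only [R]
    rw [List.getD_append_right _ _ _ _ (by omega),
      List.getD_eq_getElem _ _ (by rw [List.length_ofFn]; omega)]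
    simp only [List.getElem_ofFn]
    congr 1
    omega

end HF97
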