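import Pool.Agent.LibHF97.Words

/-! The probability of a bad arc. -/

open Finset

namespace HF97

variable {G : ℕ}

/-- the position `i + j` on the circle of length `N` -/
def pos {N : ℕ} (hN : 0 < N) (i j : ℕ) : Fin N := ⟨(i + j) % N, Nat.mod_lt _ hN⟩

theorem pos_inj {N : ℕ} (hN : 0 < N) {i n : ℕ} (hn : n ≤ N) {j j' : ℕ} (hj : j < n) (hj' : j' < n)
    (h : pos hN i j = pos hN i j') : j = j' := by
  have h1 : (i + j) % N = (i + j') % N := congrArg Fin.val h
  have h2 : i + j ≡ i + j' [MOD N] := h1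
  have h3 : j ≡ j' [MOD N] := Nat.ModEq.add_left_cancel' i h2
  have h4 : j % N = j' % N := h3
  rwa [Nat.mod_eq_of_lt (hj.trans_le hn), Nat.mod_eq_of_lt (hj'.trans_le hn)] at h4

theorem arc_word {N : ℕ} (hN : 0 < N) (g : Fin N → Bool) (i n : ℕ) :
    arc (word g) i n = word (fun j : Fin n => g (pos hN i j)) := by
  unfold arc
  rw [length_word]
  apply List.ext_getElem
  · simp [word]
  · intro j h1 h2
    simp only [List.getElem_map, List.getElem_range]
    rw [getD_word g (Nat.mod_lt _ hN)]
    simp [word, pos]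

/-- the bad event: some word which agrees with `f` at the tame positions has a bad arc -/
def bad (G : ℕ) (T : Set (List ℕ)) {N : ℕ} (i n : ℕ) : Set (Fin N → Bool) :=
  {f | ∃ g : Fin N → Bool, (∀ x : Fin N, 3 ≤ (x : ℕ) % G → g x = f x) ∧ arc (word g) i n ∈ T}

/-- the support of the arc -/
def sup {N : ℕ} (hN : 0 < N) (i n : ℕ) : Finset (Fin N) := (range n).image (pos hN i)

theorem card_sup {N : ℕ} (hN : 0 < N) {i n : ℕ} (hn : n ≤ N) : (sup hN i n).card = n := by
  unfold sup
  rw [card_image_of_injOn, card_range]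
  intro j hj j' hj' h
  exact pos_inj hN hn (mem_range.1 (mem_coe.1 hj)) (mem_range.1 (mem_coe.1 hj')) h

theorem bad_dep (T : Set (List ℕ)) {N : ℕ} (hN : 0 < N) (i n : ℕ) :
    dep (sup hN i n) (bad G T i n : Set (Fin N → Bool)) := by
  have key : ∀ f g : Fin N → Bool, (∀ x ∈ sup hN i n, f x = g x) →
      f ∈ (bad G T i n : Set (Fin N → Bool)) → g ∈ (bad G T i n : Set (Fin N → Bool)) := by
    classical
    rintro f g hfg ⟨f', hf', hT⟩
    refine ⟨fun x => if x ∈ sup hN i n then f' x else g x, fun x hx => ?_, ?_⟩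
    · by_cases hxs : x ∈ sup hN i n
      · simp only [if_pos hxs]
        rw [hf' x hx, hfg x hxs]
      · simp only [if_neg hxs]
    · have : arc (word fun x => if x ∈ sup hN i n then f' x else g x) i n = arc (word f') i n := by
        rw [arc_word hN, arc_word hN]
        congr 1
        funext j
        exact if_pos (show pos hN i (j : ℕ) ∈ sup hN i n from
          mem_image.2 ⟨(j : ℕ), mem_range.2 j.2, rfl⟩)
      rw [this]
      exact hT
  intro f g hfg
  exact ⟨key f g hfg, key g f fun x hx => (hfg x hx).symm⟩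

/-- the number of wild positions of an arc -/
theorem card_wild (i n : ℕ) :
    ((range n).filter fun j => ¬ 3 ≤ (i + j) % G).card ≤ 3 * (n / G + 1) := by
  have h1 : ((range n).filter fun j => ¬ 3 ≤ (i + j) % G).card ≤
      (range 3 ×ˢ range (n / G + 1)).card := by
    refine card_le_card_of_injOn (fun j => ((i + j) % G, j / G)) ?_ ?_
    · intro j hj
      simp only [coe_filter, mem_range, Set.mem_ofPred_eq] at hj
      simp only [coe_product, Set.mem_prod, mem_coe, mem_range]
      refine ⟨by omega, Nat.lt_succ_of_le (Nat.div_le_div_right hj.1.le)⟩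
    · intro j _ j' _ h
      simp only [Prod.mk.injEq] at h
      have h2 : i + j ≡ i + j' [MOD G] := h.1
      have h3 : j % G = j' % G := Nat.ModEq.add_left_cancel' i h2
      have h4 := Nat.div_add_mod j G
      have h5 := Nat.div_add_mod j' G
      rw [h.2, h3] at h4
      omega
  rwa [card_product, card_range, card_range] at h1

/-- the probability of a bad event -/
theorem pr_bad {a b : ℝ} (ha : 0 < a) (hb : 0 < b) {w : Bool → ℝ}
    (hw : ∀ c, w c = (if c then b else a) / (a + b)) {κ : ℝ} (hκ1 : 1 ≤ κ)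
    (hκ : ∀ c, 1 ≤ w c * κ) (T : Set (List ℕ)) {C0 : ℝ}
    (hC0 : ∀ n : ℕ, ∑ h : Fin n → Bool,
      {h : Fin n → Bool | word h ∈ T}.indicator (fun h => ∏ j, (if h j then b else a)) h ≤ C0)
    {N : ℕ} (hN : 0 < N) (hGN : G ∣ N) (i n : ℕ) (hn : n ≤ N) :
    pr w (bad G T i n : Set (Fin N → Bool)) ≤ C0 * (a + b)⁻¹ ^ n * κ ^ (3 * (n / G + 1)) := by
  classical
  have hab : 0 < a + b := by positivity
  have hw0 : ∀ c, 0 ≤ w c := by
    intro c
    rw [hw]
    cases c <;> simp <;> positivity
  have hw1 : ∑ c, w c = 1 := by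
    rw [Fintype.sum_bool, hw, hw]
    simp only [if_true, Bool.false_eq_true, if_false]
    field_simp
    ring
  -- the cylinders
  let cy : (Fin n → Bool) → Set (Fin N → Bool) := fun h =>
    {f | ∀ j : Fin n, 3 ≤ (i + j) % G → f (pos hN i j) = h j}
  have hmod : ∀ j : ℕ, (pos hN i j : ℕ) % G = (i + j) % G := fun j => Nat.mod_mod_of_dvd _ hGN
  have h1 := pr_union hw0 {h : Fin n → Bool | word h ∈ T}
    (bad G T i n : Set (Fin N → Bool)) cy (by
      rintro f ⟨g, hg, hT⟩
      rw [arc_word hN] at hT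
      refine ⟨fun j => g (pos hN i j), hT, fun j hj => ?_⟩
      exact (hg _ (by rw [hmod]; exact hj)).symm)
  refine h1.trans ?_
  have h2 : ∀ h : Fin n → Bool, pr w (cy h) ≤
      (∏ j, (if h j then b else a)) * ((a + b)⁻¹ ^ n * κ ^ (3 * (n / G + 1))) := by
    intro h
    let S : Finset (Fin n) := univ.filter fun j => 3 ≤ (i + (j : ℕ)) % G
    let S' : Finset (Fin N) := S.image fun j : Fin n => pos hN i (j : ℕ)
    have hinj : ∀ j j' : Fin n, pos hN i (j : ℕ) = pos hN i (j' : ℕ) → j = j' := fun j j' hjj =>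
      Fin.ext (pos_inj hN hn j.2 j'.2 hjj)
    let h' : Fin N → Bool := fun x =>
      if hx : ∃ j : Fin n, pos hN i (j : ℕ) = x then h hx.choose else true
    have hh' : ∀ j : Fin n, h' (pos hN i (j : ℕ)) = h j := by
      intro j
      have hx : ∃ j' : Fin n, pos hN i (j' : ℕ) = pos hN i (j : ℕ) := ⟨j, rfl⟩
      simp only [h', dif_pos hx]
      congr 1
      exact hinj _ _ hx.choose_spec
    have h3 : cy h = {f : Fin N → Bool | ∀ x ∈ S', f x = h' x} := by
      ext f
      simp only [cy, S', S, Set.mem_ofPred_eq, mem_image, mem_filter, mem_univ, true_and,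
        forall_exists_index, and_imp]
      constructor
      · rintro hf x j hj rfl
        rw [hf j hj, hh']
      · intro hf j hj
        rw [hf _ j hj rfl, hh']
    rw [h3, pr_cyl w hw1]
    rw [show S' = S.image fun j : Fin n => pos hN i (j : ℕ) from rfl,
      prod_image (fun j _ j' _ hjj => hinj j j' hjj)]
    simp only [hh']
    have h4 : ∏ j ∈ S, w (h j) ≤ ∏ j : Fin n, w (h j) *
        (if 3 ≤ (i + (j : ℕ)) % G then 1 else κ) := by
      rw [show S = univ.filter fun j : Fin n => 3 ≤ (i + (j : ℕ)) % G from rfl, prod_filter]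
      refine prod_le_prod (fun j _ => ?_) fun j _ => ?_
      · split_ifs
        · exact hw0 _
        · exact zero_le_one
      · split_ifs
        · rw [mul_one]
        · exact hκ _
    refine h4.trans ?_
    rw [prod_mul_distrib]
    have h5 : ∏ j : Fin n, w (h j) = (∏ j, (if h j then b else a)) * (a + b)⁻¹ ^ n := by
      simp only [hw, div_eq_mul_inv]
      rw [prod_mul_distrib, prod_const, card_univ, Fintype.card_fin]
    have h6 : ∏ j : Fin n, (if 3 ≤ (i + (j : ℕ)) % G then 1 else κ) ≤
        κ ^ (3 * (n / G + 1)) := by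
      rw [Fin.prod_univ_eq_prod_range (fun j => if 3 ≤ (i + j) % G then 1 else κ) n]
      have h7 : ∏ j ∈ range n, (if 3 ≤ (i + j) % G then 1 else κ) =
          κ ^ ((range n).filter fun j => ¬ 3 ≤ (i + j) % G).card := by
        rw [← prod_const, prod_filter]
        refine prod_congr rfl fun j _ => ?_
        by_cases hj : 3 ≤ (i + j) % G
        · rw [if_pos hj, if_neg (by simpa using hj)]
        · rw [if_neg hj, if_pos hj]
      rw [h7]
      exact pow_le_pow_right₀ hκ1 (card_wild i n)
    rw [h5, mul_assoc]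
    refine mul_le_mul_of_nonneg_left (mul_le_mul_of_nonneg_left h6 (by positivity)) ?_
    exact prod_nonneg fun j _ => by split_ifs <;> positivity
  have h8 : ∀ h : Fin n → Bool,
      {h : Fin n → Bool | word h ∈ T}.indicator (fun h => pr w (cy h)) h ≤
      {h : Fin n → Bool | word h ∈ T}.indicator (fun h => ∏ j, (if h j then b else a)) h *
        ((a + b)⁻¹ ^ n * κ ^ (3 * (n / G + 1))) := by
    intro h
    by_cases hh : h ∈ {h : Fin n → Bool | word h ∈ T}
    · rw [Set.indicator_of_mem hh, Set.indicator_of_mem hh]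
      exact h2 h
    · rw [Set.indicator_of_notMem hh, Set.indicator_of_notMem hh, zero_mul]
  refine (sum_le_sum fun h _ => h8 h).trans ?_
  rw [← sum_mul, mul_assoc]
  refine mul_le_mul_of_nonneg_right (hC0 n) ?_
  have : 0 < κ := by linarith
  positivity

/-- the number of arcs of length `n` through a point -/
theorem card_starts {N : ℕ} (hN : 0 < N) (n : ℕ) (x : Fin N) :
    ((univ : Finset (Fin N)).filter fun i : Fin N => x ∈ sup hN (i : ℕ) n).card ≤ n := by
  classical
  have h1 : ((univ : Finset (Fin N)).filter fun i : Fin N => x ∈ sup hN (i : ℕ) n) ⊆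
      (range n).biUnion fun j =>
        (univ : Finset (Fin N)).filter fun i : Fin N => pos hN (i : ℕ) j = x := by
    intro i hi
    rw [mem_filter] at hi
    obtain ⟨j, hj, hjx⟩ := mem_image.1 hi.2
    rw [mem_biUnion]
    exact ⟨j, hj, mem_filter.2 ⟨mem_univ _, hjx⟩⟩
  refine (card_le_card h1).trans ((card_biUnion_le_card_mul _ _ 1 fun j _ => ?_).trans ?_)
  · rw [card_le_one]
    intro i hi i' hi'
    rw [mem_filter] at hi hi'
    have h2 : (i + j : ℕ) % N = (i' + j : ℕ) % N := congrArg Fin.val (hi.2.trans hi'.2.symm)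
    have h3 : (i : ℕ) % N = (i' : ℕ) % N := Nat.ModEq.add_right_cancel' j h2
    rw [Nat.mod_eq_of_lt i.2, Nat.mod_eq_of_lt i'.2] at h3
    exact Fin.ext h3
  · rw [card_range, mul_one]

end HF97
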