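import Pool.Agent.LibHF97.Est

/-! The probability of a bad arc, for a general number of free positions. -/

open Finset

namespace HF97

variable {h hh G : ℕ}

/-- the bad event: some word which agrees with `f` at the tame positions has a bad arc -/
def badW (h G : ℕ) (T : Set (List ℕ)) {N : ℕ} (i n : ℕ) : Set (Fin N → Bool) :=
  {f | ∃ g : Fin N → Bool, (∀ x : Fin N, h ≤ (x : ℕ) % G → g x = f x) ∧ arc (word g) i n ∈ T}

theorem bad_depW (T : Set (List ℕ)) {N : ℕ} (hN : 0 < N) (i n : ℕ) :
    dep (sup hN i n) (badW h G T i n : Set (Fin N → Bool)) := by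
  have key : ∀ f g : Fin N → Bool, (∀ x ∈ sup hN i n, f x = g x) →
      f ∈ (badW h G T i n : Set (Fin N → Bool)) → g ∈ (badW h G T i n : Set (Fin N → Bool)) := by
    classical
    rintro f g hfg ⟨f', hf', hT⟩
    refine ⟨fun x => if x ∈ sup hN i n then f' x else g x, fun x hx => ?_, ?_⟩
    · by_cases hxs : x ∈ sup hN i n
      · simp only [if_pos hxs]
        rw [hf' x hx, hfg x hxs]
      · simp only [if_neg hxs]
    · have : arc (word fun x => if x ∈ sup hN i n then f' x else g x) i n = arc (word f') i n := by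
        rw [arc_word hN, arc_word hN]
        congr 1
        funext j
        exact if_pos (show pos hN i (j : ℕ) ∈ sup hN i n from
          mem_image.2 ⟨(j : ℕ), mem_range.2 j.2, rfl⟩)
      rw [this]
      exact hT
  intro f g hfg
  exact ⟨key f g hfg, key g f fun x hx => (hfg x hx).symm⟩

/-- the number of wild positions of an arc -/
theorem card_wildW (i n : ℕ) :
    ((range n).filter fun j => ¬ h ≤ (i + j) % G).card ≤ h * (n / G + 1) := by
  have h1 : ((range n).filter fun j => ¬ h ≤ (i + j) % G).card ≤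
      (range h ×ˢ range (n / G + 1)).card := by
    refine card_le_card_of_injOn (fun j => ((i + j) % G, j / G)) ?_ ?_
    · intro j hj
      simp only [coe_filter, mem_range, Set.mem_ofPred_eq] at hj
      simp only [coe_product, Set.mem_prod, mem_coe, mem_range]
      refine ⟨by omega, Nat.lt_succ_of_le (Nat.div_le_div_right hj.1.le)⟩
    · intro j _ j' _ h
      simp only [Prod.mk.injEq] at h
      have h2 : i + j ≡ i + j' [MOD G] := h.1
      have h3 : j % G = j' % G := Nat.ModEq.add_left_cancel' i h2
      have h4 := Nat.div_add_mod j G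
      have h5 := Nat.div_add_mod j' G
      rw [h.2, h3] at h4
      omega
  rwa [card_product, card_range, card_range] at h1

/-- the probability of a bad event -/
theorem pr_badW {a b : ℝ} (ha : 0 < a) (hb : 0 < b) {w : Bool → ℝ}
    (hw : ∀ c, w c = (if c then b else a) / (a + b)) {κ : ℝ} (hκ1 : 1 ≤ κ)
    (hκ : ∀ c, 1 ≤ w c * κ) (T : Set (List ℕ)) {C0 : ℝ}
    (hC0 : ∀ n : ℕ, ∑ h : Fin n → Bool,
      {h : Fin n → Bool | word h ∈ T}.indicator (fun h => ∏ j, (if h j then b else a)) h ≤ C0)
    {N : ℕ} (hN : 0 < N) (hGN : G ∣ N) (i n : ℕ) (hn : n ≤ N) :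
    pr w (badW hh G T i n : Set (Fin N → Bool)) ≤ C0 * (a + b)⁻¹ ^ n * κ ^ (hh * (n / G + 1)) := by
  classical
  have hab : 0 < a + b := by positivity
  have hw0 : ∀ c, 0 ≤ w c := by
    intro c
    rw [hw]
    cases c <;> simp <;> positivity
  have hw1 : ∑ c, w c = 1 := by
    rw [Fintype.sum_bool, hw, hw]
    simp only [if_true, Bool.false_eq_true, if_false]
    field_simp
    ring
  -- the cylinders
  let cy : (Fin n → Bool) → Set (Fin N → Bool) := fun h =>
    {f | ∀ j : Fin n, hh ≤ (i + j) % G → f (pos hN i j) = h j}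
  have hmod : ∀ j : ℕ, (pos hN i j : ℕ) % G = (i + j) % G := fun j => Nat.mod_mod_of_dvd _ hGN
  have h1 := pr_union hw0 {h : Fin n → Bool | word h ∈ T}
    (badW hh G T i n : Set (Fin N → Bool)) cy (by
      rintro f ⟨g, hg, hT⟩
      rw [arc_word hN] at hT
      refine ⟨fun j => g (pos hN i j), hT, fun j hj => ?_⟩
      exact (hg _ (by rw [hmod]; exact hj)).symm)
  refine h1.trans ?_
  have h2 : ∀ h : Fin n → Bool, pr w (cy h) ≤
      (∏ j, (if h j then b else a)) * ((a + b)⁻¹ ^ n * κ ^ (hh * (n / G + 1))) := by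
    intro h
    let S : Finset (Fin n) := univ.filter fun j => hh ≤ (i + (j : ℕ)) % G
    let S' : Finset (Fin N) := S.image fun j : Fin n => pos hN i (j : ℕ)
    have hinj : ∀ j j' : Fin n, pos hN i (j : ℕ) = pos hN i (j' : ℕ) → j = j' := fun j j' hjj =>
      Fin.ext (pos_inj hN hn j.2 j'.2 hjj)
    let h' : Fin N → Bool := fun x =>
      if hx : ∃ j : Fin n, pos hN i (j : ℕ) = x then h hx.choose else true
    have hh' : ∀ j : Fin n, h' (pos hN i (j : ℕ)) = h j := by
      intro j
      have hx : ∃ j' : Fin n, pos hN i (j' : ℕ) = pos hN i (j : ℕ) := ⟨j, rfl⟩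
      simp only [h', dif_pos hx]
      congr 1
      exact hinj _ _ hx.choose_spec
    have h3 : cy h = {f : Fin N → Bool | ∀ x ∈ S', f x = h' x} := by
      ext f
      simp only [cy, S', S, Set.mem_ofPred_eq, mem_image, mem_filter, mem_univ, true_and,
        forall_exists_index, and_imp]
      constructor
      · rintro hf x j hj rfl
        rw [hf j hj, hh']
      · intro hf j hj
        rw [hf _ j hj rfl, hh']
    rw [h3, pr_cyl w hw1]
    rw [show S' = S.image fun j : Fin n => pos hN i (j : ℕ) from rfl,
      prod_image (fun j _ j' _ hjj => hinj j j' hjj)]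
    simp only [hh']
    have h4 : ∏ j ∈ S, w (h j) ≤ ∏ j : Fin n, w (h j) *
        (if hh ≤ (i + (j : ℕ)) % G then 1 else κ) := by
      rw [show S = univ.filter fun j : Fin n => hh ≤ (i + (j : ℕ)) % G from rfl, prod_filter]
      refine prod_le_prod (fun j _ => ?_) fun j _ => ?_
      · split_ifs
        · exact hw0 _
        · exact zero_le_one
      · split_ifs
        · rw [mul_one]
        · exact hκ _
    refine h4.trans ?_
    rw [prod_mul_distrib]
    have h5 : ∏ j : Fin n, w (h j) = (∏ j, (if h j then b else a)) * (a + b)⁻¹ ^ n := by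
      simp only [hw, div_eq_mul_inv]
      rw [prod_mul_distrib, prod_const, card_univ, Fintype.card_fin]
    have h6 : ∏ j : Fin n, (if hh ≤ (i + (j : ℕ)) % G then 1 else κ) ≤
        κ ^ (hh * (n / G + 1)) := by
      rw [Fin.prod_univ_eq_prod_range (fun j => if hh ≤ (i + j) % G then 1 else κ) n]
      have h7 : ∏ j ∈ range n, (if hh ≤ (i + j) % G then 1 else κ) =
          κ ^ ((range n).filter fun j => ¬ hh ≤ (i + j) % G).card := by
        rw [← prod_const, prod_filter]
        refine prod_congr rfl fun j _ => ?_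
        by_cases hj : hh ≤ (i + j) % G
        · rw [if_pos hj, if_neg (by simpa using hj)]
        · rw [if_neg hj, if_pos hj]
      rw [h7]
      exact pow_le_pow_right₀ hκ1 (card_wildW i n)
    rw [h5, mul_assoc]
    refine mul_le_mul_of_nonneg_left (mul_le_mul_of_nonneg_left h6 (by positivity)) ?_
    exact prod_nonneg fun j _ => by split_ifs <;> positivity
  have h8 : ∀ h : Fin n → Bool,
      {h : Fin n → Bool | word h ∈ T}.indicator (fun h => pr w (cy h)) h ≤
      {h : Fin n → Bool | word h ∈ T}.indicator (fun h => ∏ j, (if h j then b else a)) h *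
        ((a + b)⁻¹ ^ n * κ ^ (hh * (n / G + 1))) := by
    intro h
    by_cases hh : h ∈ {h : Fin n → Bool | word h ∈ T}
    · rw [Set.indicator_of_mem hh, Set.indicator_of_mem hh]
      exact h2 h
    · rw [Set.indicator_of_notMem hh, Set.indicator_of_notMem hh, zero_mul]
  refine (sum_le_sum fun h _ => h8 h).trans ?_
  rw [← sum_mul, mul_assoc]
  refine mul_le_mul_of_nonneg_right (hC0 n) ?_
  have : 0 < κ := by linarith
  positivity


end HF97
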