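import Mathlib

/-! A counting lemma (Miller, Rosenfeld): weighted colourings which avoid bad events. -/

open Finset

namespace HF97

section Miller

variable {V C : Type} [Fintype V] [DecidableEq V] [Fintype C]

/-- the weight of a colouring -/
noncomputable def wgt (w : C → ℝ) (f : V → C) : ℝ := ∏ x, w (f x)

/-- the probability of a set of colourings -/
noncomputable def pr (w : C → ℝ) (A : Set (V → C)) : ℝ :=
  ∑ f : V → C, wgt w f * A.indicator (fun _ => (1 : ℝ)) f

/-- the set `A` depends only on the colours of the points of `I` -/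
def dep (I : Finset V) (A : Set (V → C)) : Prop :=
  ∀ f g : V → C, (∀ x ∈ I, f x = g x) → (f ∈ A ↔ g ∈ A)

theorem wgt_nonneg {w : C → ℝ} (hw : ∀ c, 0 ≤ w c) (f : V → C) : 0 ≤ wgt w f :=
  prod_nonneg fun x _ => hw (f x)

theorem ind_nonneg (A : Set (V → C)) (f : V → C) : 0 ≤ A.indicator (fun _ => (1 : ℝ)) f :=
  Set.indicator_nonneg (fun _ _ => zero_le_one) f

theorem pr_nonneg {w : C → ℝ} (hw : ∀ c, 0 ≤ w c) (A : Set (V → C)) : 0 ≤ pr w A :=
  sum_nonneg fun f _ => mul_nonneg (wgt_nonneg hw f) (ind_nonneg A f)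

theorem pr_mono {w : C → ℝ} (hw : ∀ c, 0 ≤ w c) {A B : Set (V → C)} (h : A ⊆ B) :
    pr w A ≤ pr w B :=
  sum_le_sum fun f _ => mul_le_mul_of_nonneg_left
    (Set.indicator_le_indicator_of_subset h (fun _ => zero_le_one) f) (wgt_nonneg hw f)

theorem sum_wgt (w : C → ℝ) (hw1 : ∑ c, w c = 1) : ∑ f : V → C, wgt w f = 1 := by
  classical
  have h := prod_univ_sum (fun _ : V => (univ : Finset C)) (fun _ c => w c)
  rw [Fintype.piFinset_univ] at h
  unfold wgt
  rw [← h, hw1, prod_const_one]

theorem pr_univ (w : C → ℝ) (hw1 : ∑ c, w c = 1) : pr w (Set.univ : Set (V → C)) = 1 := by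
  unfold pr
  simp only [Set.indicator_univ, mul_one]
  exact sum_wgt w hw1

/-- independence -/
theorem pr_inter (w : C → ℝ) (hw1 : ∑ c, w c = 1) {I J : Finset V} {A B : Set (V → C)}
    (hA : dep I A) (hB : dep J B) (hIJ : Disjoint I J) : pr w (A ∩ B) = pr w A * pr w B := by
  classical
  let φ : (V → C) × (V → C) → (V → C) × (V → C) := fun p =>
    (fun x => if x ∈ I then p.1 x else p.2 x, fun x => if x ∈ I then p.2 x else p.1 x)
  have hφ : Function.Involutive φ := by
    rintro ⟨f, g⟩
    simp only [φ, Prod.mk.injEq]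
    constructor
    · funext x
      by_cases hx : x ∈ I <;> simp [hx]
    · funext x
      by_cases hx : x ∈ I <;> simp [hx]
  have h1 : pr w A * pr w B = ∑ p : (V → C) × (V → C),
      (wgt w p.1 * A.indicator (fun _ => (1 : ℝ)) p.1) *
        (wgt w p.2 * B.indicator (fun _ => (1 : ℝ)) p.2) := by
    unfold pr
    rw [sum_mul_sum, ← univ_product_univ, sum_product]
  have h2 : ∑ p : (V → C) × (V → C), (wgt w p.1 * A.indicator (fun _ => (1 : ℝ)) p.1) *
        (wgt w p.2 * B.indicator (fun _ => (1 : ℝ)) p.2) =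
      ∑ p : (V → C) × (V → C), (wgt w (φ p).1 * A.indicator (fun _ => (1 : ℝ)) (φ p).1) *
        (wgt w (φ p).2 * B.indicator (fun _ => (1 : ℝ)) (φ p).2) :=
    (Equiv.sum_comp hφ.toPerm fun p : (V → C) × (V → C) =>
      (wgt w p.1 * A.indicator (fun _ => (1 : ℝ)) p.1) *
        (wgt w p.2 * B.indicator (fun _ => (1 : ℝ)) p.2)).symm
  have h3 : ∀ p : (V → C) × (V → C),
      (wgt w (φ p).1 * A.indicator (fun _ => (1 : ℝ)) (φ p).1) *
        (wgt w (φ p).2 * B.indicator (fun _ => (1 : ℝ)) (φ p).2) =
      (wgt w p.1 * (A ∩ B).indicator (fun _ => (1 : ℝ)) p.1) * wgt w p.2 := by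
    rintro ⟨f, g⟩
    have e1 : wgt w (φ (f, g)).1 * wgt w (φ (f, g)).2 = wgt w f * wgt w g := by
      unfold wgt
      rw [← prod_mul_distrib, ← prod_mul_distrib]
      refine prod_congr rfl fun x _ => ?_
      by_cases hx : x ∈ I
      · simp [φ, hx]
      · simp [φ, hx, mul_comm]
    have e2 : A.indicator (fun _ => (1 : ℝ)) (φ (f, g)).1 =
        A.indicator (fun _ => (1 : ℝ)) f := by
      have : (φ (f, g)).1 ∈ A ↔ f ∈ A := hA _ _ fun x hx => by simp [φ, hx]
      by_cases hf : f ∈ A
      · rw [Set.indicator_of_mem hf, Set.indicator_of_mem (this.2 hf)]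
      · rw [Set.indicator_of_notMem hf, Set.indicator_of_notMem (fun h => hf (this.1 h))]
    have e3 : B.indicator (fun _ => (1 : ℝ)) (φ (f, g)).2 =
        B.indicator (fun _ => (1 : ℝ)) f := by
      have : (φ (f, g)).2 ∈ B ↔ f ∈ B := hB _ _ fun x hx => by
        have : x ∉ I := fun h => (Finset.disjoint_left.1 hIJ h) hx
        simp [φ, this]
      by_cases hf : f ∈ B
      · rw [Set.indicator_of_mem hf, Set.indicator_of_mem (this.2 hf)]
      · rw [Set.indicator_of_notMem hf, Set.indicator_of_notMem (fun h => hf (this.1 h))]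
    have e4 : (A ∩ B).indicator (fun _ => (1 : ℝ)) f =
        A.indicator (fun _ => (1 : ℝ)) f * B.indicator (fun _ => (1 : ℝ)) f := by
      by_cases hfA : f ∈ A
      · by_cases hfB : f ∈ B
        · rw [Set.indicator_of_mem hfA, Set.indicator_of_mem hfB,
            Set.indicator_of_mem (show f ∈ A ∩ B from ⟨hfA, hfB⟩), one_mul]
        · rw [Set.indicator_of_notMem hfB,
            Set.indicator_of_notMem (fun h : f ∈ A ∩ B => hfB h.2), mul_zero]
      · rw [Set.indicator_of_notMem hfA,
          Set.indicator_of_notMem (fun h : f ∈ A ∩ B => hfA h.1), zero_mul]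
    rw [e2, e3, e4]
    calc _ = (wgt w (φ (f, g)).1 * wgt w (φ (f, g)).2) * (A.indicator (fun _ => (1 : ℝ)) f *
          B.indicator (fun _ => (1 : ℝ)) f) := by ring
      _ = _ := by
        rw [e1]
        ring
  rw [h1, h2]
  simp only [h3]
  rw [← univ_product_univ, sum_product]
  simp only [← mul_sum, sum_wgt w hw1, mul_one]
  rfl

variable {E : Type} [Fintype E]

/-- no bad event inside `X` -/
def good (I : E → Finset V) (bad : E → Set (V → C)) (X : Finset V) : Set (V → C) :=
  {f | ∀ e, I e ⊆ X → f ∉ bad e}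

omit [Fintype V] [Fintype C] [DecidableEq V] [Fintype E] in
theorem good_dep {I : E → Finset V} {bad : E → Set (V → C)} (hdep : ∀ e, dep (I e) (bad e))
    (X : Finset V) : dep X (good I bad X) := by
  intro f g hfg
  unfold good
  constructor
  · intro h e he hg
    exact h e he ((hdep e f g fun x hx => hfg x (he hx)).2 hg)
  · intro h e he hf
    exact h e he ((hdep e f g fun x hx => hfg x (he hx)).1 hf)

theorem miller_step {w : C → ℝ} (hw : ∀ c, 0 ≤ w c) (hw1 : ∑ c, w c = 1) {I : E → Finset V}
    {bad : E → Set (V → C)} (hdep : ∀ e, dep (I e) (bad e)) {β : ℝ} (hβ : 0 < β)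
    (hsum : ∀ x : V, ∑ e with x ∈ I e, pr w (bad e) * β⁻¹ ^ ((I e).card - 1) ≤ 1 - β) :
    ∀ (n : ℕ) (X : Finset V), X.card = n → ∀ x ∉ X,
      β * pr w (good I bad X) ≤ pr w (good I bad (insert x X)) := by
  classical
  intro n
  induction n using Nat.strong_induction_on with
  | _ n ih =>
  intro X hX x hx
  -- smaller sets
  have hsub : ∀ S : Finset V, ∀ Y : Finset V, Disjoint Y S → Y ∪ S ⊆ X →
      pr w (good I bad Y) ≤ β⁻¹ ^ S.card * pr w (good I bad (Y ∪ S)) := by
    intro S
    induction S using Finset.induction_on with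
    | empty =>
      intro Y _ _
      simp
    | insert s S hs ihS =>
      intro Y hYS hYX
      have hd : Disjoint Y S := disjoint_of_subset_right (subset_insert s S) hYS
      have hu : Y ∪ S ⊆ X := (union_subset_union_right (subset_insert s S)).trans hYX
      have hsY : s ∉ Y ∪ S := by
        rw [mem_union, not_or]
        exact ⟨fun h => disjoint_left.1 hYS h (mem_insert_self s S), hs⟩
      have hsX : s ∈ X := hYX (mem_union_right _ (mem_insert_self s S))
      have hlt : (Y ∪ S).card < n := by
        rw [← hX]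
        exact card_lt_card ((ssubset_iff_of_subset hu).2 ⟨s, hsX, hsY⟩)
      have h1 := ihS Y hd hu
      have h2 := ih _ hlt (Y ∪ S) rfl s hsY
      have h3 : pr w (good I bad (Y ∪ S)) ≤ β⁻¹ * pr w (good I bad (insert s (Y ∪ S))) := by
        rw [le_inv_mul_iff₀ hβ]
        exact h2
      rw [union_insert, card_insert_of_notMem hs, pow_succ, mul_assoc]
      exact h1.trans (mul_le_mul_of_nonneg_left h3 (by positivity))
  set A := good I bad X with hA
  set A' := good I bad (insert x X) with hA'
  -- union bound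
  have h1 : pr w A ≤ pr w A' + ∑ e with x ∈ I e, pr w (good I bad (X \ I e) ∩ bad e) *
      (if I e ⊆ insert x X then 1 else 0) := by
    unfold pr
    have hswap : ∑ e with x ∈ I e, (∑ f : V → C, wgt w f *
          (good I bad (X \ I e) ∩ bad e).indicator (fun _ => (1 : ℝ)) f) *
          (if I e ⊆ insert x X then (1 : ℝ) else 0) =
        ∑ f : V → C, wgt w f * ∑ e with x ∈ I e,
          (good I bad (X \ I e) ∩ bad e).indicator (fun _ => (1 : ℝ)) f *
          (if I e ⊆ insert x X then (1 : ℝ) else 0) := by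
      simp only [sum_mul, mul_sum]
      rw [sum_comm]
      refine sum_congr rfl fun f _ => sum_congr rfl fun e _ => ?_
      ring
    rw [hswap, ← sum_add_distrib]
    refine sum_le_sum fun f _ => ?_
    rw [← mul_add]
    refine mul_le_mul_of_nonneg_left ?_ (wgt_nonneg hw f)
    have hnn : ∀ e ∈ univ.filter (fun e => x ∈ I e),
        0 ≤ (good I bad (X \ I e) ∩ bad e).indicator (fun _ => (1 : ℝ)) f *
          (if I e ⊆ insert x X then (1 : ℝ) else 0) := by
      intro e _
      refine mul_nonneg (ind_nonneg _ f) ?_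
      split_ifs <;> norm_num
    by_cases hf : f ∈ A
    · rw [Set.indicator_of_mem hf]
      by_cases hf' : f ∈ A'
      · rw [Set.indicator_of_mem hf']
        linarith [sum_nonneg hnn]
      · rw [Set.indicator_of_notMem hf', zero_add]
        obtain ⟨e, he1, he2⟩ : ∃ e, I e ⊆ insert x X ∧ f ∈ bad e := by
          by_contra hcon
          push Not at hcon
          exact hf' fun e he => hcon e he
        have hxe : x ∈ I e := by
          by_contra hxe
          apply hf e _ he2
          intro y hy
          rcases mem_insert.1 (he1 hy) with h | h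
          · exact absurd (h ▸ hy) hxe
          · exact h
        refine le_trans (le_of_eq ?_) (single_le_sum hnn (mem_filter.2 ⟨mem_univ e, hxe⟩))
        rw [if_pos he1, mul_one, Set.indicator_of_mem]
        refine ⟨fun e' he' => hf e' (he'.trans sdiff_subset), he2⟩
    · rw [Set.indicator_of_notMem hf]
      exact add_nonneg (ind_nonneg _ f) (sum_nonneg hnn)
  have h2 : ∀ e ∈ univ.filter (fun e => x ∈ I e), pr w (good I bad (X \ I e) ∩ bad e) *
      (if I e ⊆ insert x X then 1 else 0) ≤
      (pr w (bad e) * β⁻¹ ^ ((I e).card - 1)) * pr w A := by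
    intro e he
    rw [mem_filter] at he
    split_ifs with hsub'
    · rw [mul_one, pr_inter w hw1 (good_dep hdep (X \ I e)) (hdep e) sdiff_disjoint]
      have hd : Disjoint (X \ I e) (X ∩ I e) :=
        disjoint_of_subset_right inter_subset_right sdiff_disjoint
      have hu : X \ I e ∪ X ∩ I e = X := sdiff_union_inter X (I e)
      have h3 := hsub (X ∩ I e) (X \ I e) hd (by rw [hu])
      rw [hu] at h3
      have hcard : (X ∩ I e).card = (I e).card - 1 := by
        have : X ∩ I e = (I e).erase x := by
          ext y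
          rw [mem_inter, mem_erase]
          constructor
          · rintro ⟨hy1, hy2⟩
            exact ⟨fun h => hx (h ▸ hy1), hy2⟩
          · rintro ⟨hy1, hy2⟩
            rcases mem_insert.1 (hsub' hy2) with h | h
            · exact absurd h hy1
            · exact ⟨h, hy2⟩
        rw [this, card_erase_of_mem he.2]
      rw [hcard] at h3
      calc pr w (good I bad (X \ I e)) * pr w (bad e)
          ≤ (β⁻¹ ^ ((I e).card - 1) * pr w A) * pr w (bad e) :=
            mul_le_mul_of_nonneg_right h3 (pr_nonneg hw _)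
        _ = _ := by ring
    · rw [mul_zero]
      have := pr_nonneg hw (bad e)
      have := pr_nonneg hw A
      positivity
  have h3 := sum_le_sum h2
  rw [← sum_mul] at h3
  have h4 := mul_le_mul_of_nonneg_right (hsum x) (pr_nonneg hw A)
  nlinarith [h1, h3, h4]

theorem miller {w : C → ℝ} (hw : ∀ c, 0 ≤ w c) (hw1 : ∑ c, w c = 1) {I : E → Finset V}
    {bad : E → Set (V → C)} (hdep : ∀ e, dep (I e) (bad e)) (hI : ∀ e, (I e).Nonempty) {β : ℝ}
    (hβ : 0 < β)
    (hsum : ∀ x : V, ∑ e with x ∈ I e, pr w (bad e) * β⁻¹ ^ ((I e).card - 1) ≤ 1 - β) :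
    ∃ f : V → C, ∀ e, f ∉ bad e := by
  classical
  have h1 : ∀ X : Finset V, β ^ X.card ≤ pr w (good I bad X) := by
    intro X
    induction X using Finset.induction_on with
    | empty =>
      rw [card_empty, pow_zero]
      have : good I bad (∅ : Finset V) = Set.univ := by
        ext f
        simp only [good, Set.mem_ofPred_eq, Set.mem_univ, iff_true]
        intro e he
        obtain ⟨y, hy⟩ := hI e
        exact absurd (he hy) (notMem_empty y)
      rw [this, pr_univ w hw1]
    | insert x X hx ih =>
      rw [card_insert_of_notMem hx, pow_succ, mul_comm]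
      exact (mul_le_mul_of_nonneg_left ih hβ.le).trans
        (miller_step hw hw1 hdep hβ hsum _ X rfl x hx)
  by_contra hcon
  push Not at hcon
  have h2 : good I bad (univ : Finset V) = ∅ := by
    ext f
    simp only [good, Set.mem_ofPred_eq, Set.mem_empty_iff_false, iff_false]
    intro h
    obtain ⟨e, he⟩ := hcon f
    exact h e (subset_univ _) he
  have h3 := h1 univ
  rw [h2] at h3
  have h4 : pr w (∅ : Set (V → C)) = 0 := by
    unfold pr
    simp
  rw [h4] at h3
  have : 0 < β ^ (univ : Finset V).card := by positivity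
  linarith

end Miller

end HF97
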