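import Pool.Agent.LibHF97.Miller

/-! Words, arcs, cylinder probabilities. -/

open Finset

namespace HF97

/-- the arc of length `n` of the circular word `L`, starting at `i` -/
def arc (L : List ℕ) (i n : ℕ) : List ℕ :=
  (List.range n).map fun j => L.getD ((i + j) % L.length) 0

/-- the words in the letters `2`, `3` -/
def W23 (w : List ℕ) : Prop := ∀ x ∈ w, x = 2 ∨ x = 3

/-- a letter -/
def lt (e : Bool) : ℕ := if e then 3 else 2

/-- a word -/
def word {n : ℕ} (g : Fin n → Bool) : List ℕ := List.ofFn fun x => lt (g x)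

theorem length_word {n : ℕ} (g : Fin n → Bool) : (word g).length = n := by
  simp [word]

theorem lt_inj {e e' : Bool} (h : lt e = lt e') : e = e' := by
  cases e <;> cases e' <;> simp_all [lt]

theorem W23_word {n : ℕ} (g : Fin n → Bool) : W23 (word g) := by
  intro x hx
  simp only [word, List.mem_ofFn] at hx
  obtain ⟨j, rfl⟩ := hx
  cases g j <;> simp [lt]

theorem getD_word {n : ℕ} (g : Fin n → Bool) {j : ℕ} (hj : j < n) :
    (word g).getD j 0 = lt (g ⟨j, hj⟩) := by
  rw [List.getD_eq_getElem _ _ (by rw [length_word]; exact hj)]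
  simp [word]

theorem word_inj {n : ℕ} {g g' : Fin n → Bool} (h : word g = word g') : g = g' := by
  funext j
  have h1 := getD_word g j.2
  have h2 := getD_word g' j.2
  rw [h, h2] at h1
  exact (lt_inj h1).symm

/-- weights of words -/
theorem prod_word (a b : ℝ) : ∀ {n : ℕ} (h : Fin n → Bool),
    ∏ j, (if h j then b else a) = a ^ ((word h).count 2) * b ^ ((word h).count 3) := by
  intro n
  induction n with
  | zero =>
    intro h
    simp [word]
  | succ n ih =>
    intro h
    have hw : word h = lt (h 0) :: word (fun j : Fin n => h j.succ) := by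
      simp [word, List.ofFn_succ]
    rw [Fin.prod_univ_succ, ih (fun j : Fin n => h j.succ), hw]
    cases h 0
    · simp only [lt, Bool.false_eq_true, if_false, List.count_cons_self]
      rw [List.count_cons_of_ne (by norm_num : (2 : ℕ) ≠ 3)]
      rw [pow_succ]
      ring
    · simp only [lt, if_true, List.count_cons_self]
      rw [List.count_cons_of_ne (by norm_num : (3 : ℕ) ≠ 2)]
      rw [pow_succ]
      ring

/-- the sum over the words of length `n` -/
theorem sum_words {a b : ℝ} (ha : 0 < a) (hb : 0 < b) (T : Set (List ℕ))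
    (hT : Summable fun w : {w : List ℕ // W23 w ∧ w ∈ T} =>
      a ^ (w.1.count 2) * b ^ (w.1.count 3)) :
    ∃ C0 : ℝ, 0 ≤ C0 ∧ ∀ n : ℕ, ∑ h : Fin n → Bool,
      {h : Fin n → Bool | word h ∈ T}.indicator (fun h => ∏ j, (if h j then b else a)) h ≤ C0 := by
  classical
  refine ⟨∑' w : {w : List ℕ // W23 w ∧ w ∈ T}, a ^ (w.1.count 2) * b ^ (w.1.count 3),
    tsum_nonneg fun w => by positivity, fun n => ?_⟩
  let S : Finset (Fin n → Bool) := univ.filter fun h => word h ∈ T
  have h1 : ∑ h : Fin n → Bool,
      {h : Fin n → Bool | word h ∈ T}.indicator (fun h => ∏ j, (if h j then b else a)) h =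
      ∑ h ∈ S, ∏ j, (if h j then b else a) := by
    rw [sum_filter]
    refine sum_congr rfl fun h _ => ?_
    simp only [Set.indicator, Set.mem_ofPred_eq]
  let φ : {h // h ∈ S} ↪ {w : List ℕ // W23 w ∧ w ∈ T} :=
    ⟨fun h => ⟨word h.1, W23_word h.1, (mem_filter.1 h.2).2⟩, fun h h' hh =>
      Subtype.ext (word_inj (congrArg Subtype.val hh))⟩
  have h2 : ∑ h ∈ S, ∏ j, (if h j then b else a) =
      ∑ w ∈ S.attach.map φ, a ^ (w.1.count 2) * b ^ (w.1.count 3) := by
    rw [sum_map, ← sum_attach]
    refine sum_congr rfl fun h _ => ?_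
    rw [prod_word]
    rfl
  rw [h1, h2]
  exact hT.sum_le_tsum _ fun w _ => by positivity

section cyl

variable {V : Type} [Fintype V] [DecidableEq V]

/-- the probability of a cylinder -/
theorem pr_cyl (w : Bool → ℝ) (hw1 : ∑ c, w c = 1) (S : Finset V) (h : V → Bool) :
    pr w {f : V → Bool | ∀ x ∈ S, f x = h x} = ∏ x ∈ S, w (h x) := by
  classical
  have h0 := prod_univ_sum (fun _ : V => (univ : Finset Bool))
    (fun x c => w c * (if x ∈ S then (if c = h x then 1 else 0) else 1))
  rw [Fintype.piFinset_univ] at h0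
  have h1 : ∀ f : V → Bool, wgt w f *
      ({f : V → Bool | ∀ x ∈ S, f x = h x}).indicator (fun _ => (1 : ℝ)) f =
      ∏ x, w (f x) * (if x ∈ S then (if f x = h x then 1 else 0) else 1) := by
    intro f
    rw [prod_mul_distrib]
    unfold wgt
    congr 1
    by_cases hf : ∀ x ∈ S, f x = h x
    · rw [Set.indicator_of_mem (show f ∈ {f : V → Bool | ∀ x ∈ S, f x = h x} from hf)]
      symm
      apply prod_eq_one
      intro x _
      by_cases hx : x ∈ S
      · rw [if_pos hx, if_pos (hf x hx)]
      · rw [if_neg hx]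
    · rw [Set.indicator_of_notMem (show f ∉ {f : V → Bool | ∀ x ∈ S, f x = h x} from hf)]
      push Not at hf
      obtain ⟨x, hx, hne⟩ := hf
      symm
      apply prod_eq_zero (mem_univ x)
      rw [if_pos hx, if_neg hne]
  unfold pr
  simp only [h1]
  rw [← h0]
  rw [← prod_subset (subset_univ S)]
  · refine prod_congr rfl fun x hx => ?_
    simp only [if_pos hx, mul_ite, mul_one, mul_zero]
    rw [sum_ite_eq' univ (h x) w, if_pos (mem_univ _)]
  · intro x _ hx
    simp only [if_neg hx, mul_one]
    exact hw1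

theorem pr_union {w : Bool → ℝ} (hw : ∀ c, 0 ≤ w c) {ι : Type} [Fintype ι] (H : Set ι)
    (A : Set (V → Bool)) (B : ι → Set (V → Bool)) (hA : ∀ f ∈ A, ∃ i ∈ H, f ∈ B i) :
    pr w A ≤ ∑ i, H.indicator (fun i => pr w (B i)) i := by
  classical
  have h1 : ∀ i, H.indicator (fun i => pr w (B i)) i =
      ∑ f : V → Bool, wgt w f * H.indicator (fun i => (B i).indicator (fun _ => (1 : ℝ)) f) i := by
    intro i
    by_cases hi : i ∈ H
    · simp only [Set.indicator_of_mem hi]
      rfl
    · simp only [Set.indicator_of_notMem hi, mul_zero, sum_const_zero]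
  simp only [h1]
  rw [sum_comm]
  unfold pr
  refine sum_le_sum fun f _ => ?_
  rw [← mul_sum]
  refine mul_le_mul_of_nonneg_left ?_ (wgt_nonneg hw f)
  have hnn : ∀ i ∈ (univ : Finset ι),
      0 ≤ H.indicator (fun i => (B i).indicator (fun _ => (1 : ℝ)) f) i := fun i _ =>
    Set.indicator_nonneg (fun j _ => ind_nonneg (B j) f) i
  by_cases hf : f ∈ A
  · rw [Set.indicator_of_mem hf]
    obtain ⟨i, hi, hfi⟩ := hA f hf
    refine le_trans (le_of_eq ?_) (single_le_sum hnn (mem_univ i))
    rw [Set.indicator_of_mem hi, Set.indicator_of_mem hfi]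
  · rw [Set.indicator_of_notMem hf]
    exact sum_nonneg hnn

end cyl

end HF97
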